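import Pool.Agent.U901.ZF.LCA
import Pool.Agent.W388.TW.Good
import Pool.Agent.W388.TW.XDir
import Pool.Agent.W482.TW.Id
import Pool.Agent.W108.TW.Mellin
import Pool.Agent.W440.TW.Twist
import Pool.Agent.Y771.NF.Inst
import Pool.Agent.U309.ZF.Stm4

set_option autoImplicit false

/-!
# Project ZF (helper309), package LC2: the continuation of the Dirichlet series of a newform

After package LCONT of helper901 (`Pool/Agent/U901/ZF/LCONT.lean`), with the Dirichlet series kept.
-/

namespace Pool.Agent.U934.ZF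

open UpperHalfPlane hiding I
open MatrixGroups CongruenceSubgroup Filter Topology Complex
open Pool.Agent.U309.ZF (IsFormOf coef lam W IsL S_LC2)
open Pool.Agent.U901.ZF (isNewf_of lamf_lam abs_lam_le abs_lam_le_bad cS_le sum_split)
open W388 (lamf cS HeckeSeq IsNewf FE2)
open ArithmeticFunction (vonMangoldt)
open scoped ComplexConjugate

theorem p_dir : W388.StDir :=
  W388.XDir.t_dir Pool.Agent.W482.TW.t_id1 Pool.Agent.Y771.NF.p_sel

theorem chi_one (n : ℕ) : (1 : DirichletCharacter ℂ 1) (n : ZMod 1) = 1 := by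
  have : (n : ZMod 1) = 1 := Subsingleton.elim _ _
  rw [this, map_one]

theorem t_LC2 : S_LC2 := by
  intro a b N _ f w _ hf
  have hN : 0 < N := Nat.pos_of_ne_zero (NeZero.ne N)
  have hnf := isNewf_of hf
  have hH : HeckeSeq N (lamf f) := W388.heckeSeq_lamf hnf
  have hR := Pool.Agent.Y771.NF.p_rs N 2 (by norm_num) f w hnf
  obtain ⟨A, hA1, hAs, hA, hdir⟩ := p_dir N hN (lamf f) hH hR
  have hsum : ∀ (q : ℕ) [NeZero q] (χ : DirichletCharacter ℂ q) (s : ℂ), 1 < s.re →
      Summable (fun n : ℕ => ‖χ (n : ZMod q) * (lamf f n : ℂ) * (n : ℂ) ^ (-s)‖) :=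
    fun q _ χ s hs => (hdir q χ _ (fun s _ => rfl)).1 s hs
  obtain ⟨F, hFE, hser⟩ := W388.exists_twist Pool.Agent.W440.TW.t_twist Pool.Agent.W108.TW.t_mellin
    (k := 2) (by norm_num) hnf hsum 1 (1 : DirichletCharacter ℂ 1)
    DirichletCharacter.isPrimitive_one_level_one (Nat.coprime_one_left N)
  obtain ⟨hsm, hne, hld, -, -, -⟩ := hdir 1 (1 : DirichletCharacter ℂ 1) F hser
  have hFd : Differentiable ℂ F := hFE.diff
  -- log derivative
  have hld' : ∀ s : ℂ, 1 < s.re → logDeriv F s =
      -∑' n : ℕ, (cS N (lamf f) n : ℂ) * (vonMangoldt n : ℂ) * (n : ℂ) ^ (-s) := by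
    intro s hs
    rw [logDeriv_apply, hld s hs]
    congr 1
    refine tsum_congr fun n => ?_
    rw [chi_one, one_mul]
  -- the coefficients
  obtain ⟨C1, hC1, hsp⟩ := sum_split (lam := lamf f) (fun n hn => cS_le hH (fun p hp => abs_lam_le hf hp)
    (fun p hp h => abs_lam_le_bad hf hp h) hn)
  have hlam : W (lamf f) = W (lam f) := by
    funext δ μ
    unfold W
    refine tsum_congr fun p => ?_
    rw [lamf_lam]
  -- the terms
  have hco : ∀ (n : ℕ) (s : ℂ), 3 / 2 < s.re → coef f n * (n : ℂ) ^ (-s) =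
      (1 : DirichletCharacter ℂ 1) (n : ZMod 1) * (lamf f n : ℂ) * (n : ℂ) ^ (-(s - 1 / 2)) := by
    intro n s hs
    rw [chi_one, one_mul]
    rcases Nat.eq_zero_or_pos n with rfl | hn
    · have h0 : -s ≠ 0 := by
        intro h
        have h' := congrArg Complex.re h
        simp only [neg_re, zero_re] at h'
        linarith
      have h1 : -(s - 1 / 2) ≠ 0 := by
        intro h
        have h' := congrArg Complex.re h
        simp at h'
        linarith
      rw [Nat.cast_zero, Complex.zero_cpow h0, Complex.zero_cpow h1, mul_zero, mul_zero]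
    · have hn0 : (n : ℂ) ≠ 0 := by exact_mod_cast hn.ne'
      have e1 : (n : ℂ) ^ (-(s - 1 / 2)) = (n : ℂ) ^ (-s) * (n : ℂ) ^ (1 / 2 : ℂ) := by
        rw [← Complex.cpow_add _ _ hn0]
        congr 1
        ring
      have e2 : (n : ℂ) ^ (1 / 2 : ℂ) = ((√(n : ℝ) : ℝ) : ℂ) := by
        rw [Real.sqrt_eq_rpow, Complex.ofReal_cpow (Nat.cast_nonneg n)]
        push_cast
        rfl
      have hs0 : √(n : ℝ) ≠ 0 := (Real.sqrt_pos.2 (by exact_mod_cast hn)).ne'
      have e4 : coef f n = (lam f n : ℂ) * ((√(n : ℝ) : ℝ) : ℂ) := by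
        unfold lam
        rw [← Complex.ofReal_mul, div_mul_cancel₀ _ hs0]
        apply Complex.ext
        · simp
        · simp [hf.real n]
      rw [e4, e1, e2, lamf_lam]
      ring
  have hhs : ∀ s : ℂ, 3 / 2 < s.re →
      HasSum (fun n : ℕ => coef f n * (n : ℂ) ^ (-s)) (F (s - 1 / 2)) := by
    intro s hs
    have h1 : 1 < (s - 1 / 2).re := by
      simp
      linarith
    rw [hser _ h1]
    have e : (fun n : ℕ => coef f n * (n : ℂ) ^ (-s)) = fun n : ℕ =>
        (1 : DirichletCharacter ℂ 1) (n : ZMod 1) * (lamf f n : ℂ) * (n : ℂ) ^ (-(s - 1 / 2)) :=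
      funext fun n => hco n s hs
    rw [e]
    exact (hsum 1 1 (s - 1 / 2) h1).of_norm.hasSum
  have hab : ∀ x : ℝ, 3 / 2 < x → Summable fun n : ℕ => ‖coef f n‖ * (n : ℝ) ^ (-x) := by
    intro x hx
    have h1 : 1 < ((x : ℂ) - 1 / 2).re := by
      simp
      linarith
    refine (hsum 1 1 ((x : ℂ) - 1 / 2) h1).congr fun n => ?_
    rw [← hco n x (by simpa using hx), norm_mul]
    congr 1
    rcases Nat.eq_zero_or_pos n with rfl | hn
    · have hx0 : (-x) ≠ 0 := by
        intro h
        linarith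
      have hx1 : (-(x : ℂ)) ≠ 0 := by
        intro h
        apply hx0
        exact_mod_cast h
      rw [Nat.cast_zero, Nat.cast_zero, Complex.zero_cpow hx1, Real.zero_rpow hx0, norm_zero]
    · rw [Complex.norm_natCast_cpow_of_pos hn, neg_re, Complex.ofReal_re]
  have key : ∀ δ μ : ℝ, 0 < δ →
      |(logDeriv (fun s => F (s - 1 / 2)) ((3 / 2 + δ : ℝ) + μ * Complex.I)).re + W (lam f) δ μ| ≤
        C1 := by
    intro δ μ hδ
    obtain ⟨hs1, hs2⟩ := hsp δ μ hδ
    set z : ℂ := (3 / 2 + δ : ℝ) + μ * Complex.I with hz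
    have e0 : z - 1 / 2 = ((1 + δ : ℝ) : ℂ) + μ * I := by
      rw [hz]; push_cast; ring
    have e1 : logDeriv (fun s => F (s - 1 / 2)) z = logDeriv F (z - 1 / 2) := by
      rw [logDeriv_apply, logDeriv_apply]
      congr 1
      exact deriv_comp_sub_const (f := F) (1 / 2) z
    have hre1 : 1 < (z - 1 / 2).re := by
      rw [e0]; simp; linarith
    rw [e1, hld' _ hre1, neg_re]
    have e2 : (∑' n : ℕ, (cS N (lamf f) n : ℂ) * (vonMangoldt n : ℂ) * (n : ℂ) ^ (-(z - 1 / 2))).re =
        ∑' n : ℕ, cS N (lamf f) n * vonMangoldt n * (n : ℝ) ^ (-(1 + δ)) * Real.cos (μ * Real.log n) := by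
      rw [Complex.re_tsum]
      · refine tsum_congr fun n => ?_
        rcases Nat.eq_zero_or_pos n with rfl | hn
        · simp
        · have hn0 : (n : ℂ) ≠ 0 := by exact_mod_cast hn.ne'
          have hn1 : (0 : ℝ) < n := by exact_mod_cast hn
          rw [← Complex.ofReal_mul, Complex.re_ofReal_mul]
          rw [mul_assoc (cS N (lamf f) n * vonMangoldt n)]
          congr 1
          have e3 : (n : ℂ) ^ (-(z - 1 / 2)) =
              (((n : ℝ) ^ (-(1 + δ)) : ℝ) : ℂ) * Complex.exp (((-(μ * Real.log n) : ℝ) : ℂ) * I) := by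
            rw [e0, neg_add, Complex.cpow_add _ _ hn0]
            congr 1
            · rw [Complex.ofReal_cpow hn1.le]
              push_cast
              rfl
            · rw [Complex.cpow_def_of_ne_zero hn0, ← Complex.natCast_log]
              congr 1
              push_cast
              ring
          rw [e3, Complex.re_ofReal_mul, Complex.exp_ofReal_mul_I_re, Real.cos_neg]
      · refine Summable.of_norm ?_
        have hs3 := ArithmeticFunction.LSeriesSummable_vonMangoldt (s := ((1 + δ : ℝ) : ℂ)) (by simpa using hδ)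
        refine Summable.of_norm_bounded (hs3.norm.mul_left 2) fun n => ?_
        rw [norm_norm, LSeries.norm_term_eq]
        split_ifs with hn
        · subst hn
          simp
        · have hn' : 0 < n := Nat.pos_of_ne_zero hn
          rw [norm_mul, norm_mul, Complex.norm_natCast_cpow_of_pos hn', Complex.norm_real,
            Complex.norm_real, Real.norm_eq_abs, Real.norm_of_nonneg ArithmeticFunction.vonMangoldt_nonneg,
            neg_re, e0]
          have e4 : (((1 + δ : ℝ) : ℂ) + μ * I).re = 1 + δ := by simp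
          rw [e4, Complex.ofReal_re, div_eq_mul_inv, ← Real.rpow_neg (Nat.cast_nonneg n),
            ← mul_assoc]
          by_cases hpp : IsPrimePow n
          · have h3 := cS_le hH (fun p hp => abs_lam_le hf hp) (fun p hp h => abs_lam_le_bad hf hp h) hpp
            have h4 : 0 ≤ vonMangoldt n := ArithmeticFunction.vonMangoldt_nonneg
            gcongr
          · rw [ArithmeticFunction.vonMangoldt_eq_zero_iff.mpr hpp]
            simp
    rw [e2, ← hlam]
    rw [abs_sub_comm] at hs2
    have e5 : ∀ x y : ℝ, -x + y = y - x := fun x y => by ring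
    rw [e5]
    exact hs2
  refine ⟨fun s => F (s - 1 / 2), C1 + 1, by linarith, ⟨hFd.comp (by fun_prop), hhs⟩,
    fun s hs => hne _ (by simp; linarith), hab, fun δ hδ _ => ?_⟩
  have h1 := key δ 0 hδ
  rw [Complex.ofReal_zero, zero_mul, add_zero] at h1
  linarith

end Pool.Agent.U934.ZF
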